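import Mathlib

namespace Pool.Agent.Results.MP_27067c_nt.ExponentialGrowth

/-- The solutions of `1/x_1 + ... + 1/x_s + 1/(x_1 ... x_s) = 1` in integers
`1 < x_1 < ... < x_s`, as sets of `s` integers greater than `1`. -/
def Solutions (s : ℕ) : Set (Finset ℕ) :=
  {x | x.card = s ∧ (∀ a ∈ x, 1 < a) ∧
    ∑ a ∈ x, (1 : ℚ) / (a : ℚ) + 1 / ∏ a ∈ x, (a : ℚ) = 1}

/-- The number of solutions with `s` unknowns. -/
noncomputable def Omega (s : ℕ) : ℕ := (Solutions s).ncard

/-- Decreasing lists of integers greater than one with `∑ 1/a + b/∏ a = 1`. -/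
def Dec (b : ℕ) (l : List ℕ) : Prop :=
  l.Pairwise (· > ·) ∧ (∀ a ∈ l, 1 < a) ∧
    (l.map (fun a : ℕ => (1 : ℚ) / (a : ℚ))).sum + (b : ℚ) / (l.prod : ℚ) = 1

lemma prod_pos' {b : ℕ} {l : List ℕ} (h : Dec b l) : 0 < l.prod := by
  apply List.prod_pos
  intro a ha
  have := h.2.1 a ha
  omega

lemma le_prod' {b : ℕ} {l : List ℕ} (h : Dec b l) {a : ℕ} (ha : a ∈ l) : a ≤ l.prod :=
  Nat.le_of_dvd (prod_pos' h) (List.dvd_prod ha)

lemma cons_dec {b b' y : ℕ} {l : List ℕ} (h : Dec b l) (hy : b * y = l.prod + b')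
    (hlt : ∀ a ∈ l, a < y) (h1 : 1 < y) : Dec b' (y :: l) := by
  have hP := prod_pos' h
  obtain ⟨hs, h1', he⟩ := h
  refine ⟨?_, ?_, ?_⟩
  · rw [List.pairwise_cons]
    exact ⟨fun a ha => hlt a ha, hs⟩
  · intro a ha
    rcases List.mem_cons.1 ha with rfl | ha
    · exact h1
    · exact h1' a ha
  · rw [List.map_cons, List.sum_cons, List.prod_cons]
    have hyQ : (y : ℚ) ≠ 0 := by
      have : (0 : ℚ) < y := by exact_mod_cast (by omega : 0 < y)
      exact this.ne'
    have hPQ : ((l.prod : ℕ) : ℚ) ≠ 0 := by exact_mod_cast hP.ne'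
    have hq : (b : ℚ) * y = l.prod + b' := by exact_mod_cast hy
    have hS : (l.map (fun a : ℕ => (1 : ℚ) / (a : ℚ))).sum = 1 - (b : ℚ) / (l.prod : ℚ) := by
      linarith
    rw [hS, Nat.cast_mul]
    have hb' : (b' : ℚ) = b * y - l.prod := by linarith
    rw [hb']
    field_simp
    ring

/-- Append the standard element. -/
def S (l : List ℕ) : List ℕ := (l.prod + 1) :: l

/-- The effect on the product. -/
def f (P : ℕ) : ℕ := (P + 1) * P

/-- The effect on the product modulo `125 * 2861 ^ 2`. -/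
def g (x : ℕ) : ℕ := ((x + 1) * x) % 1023165125

lemma S_dec {l : List ℕ} (h : Dec 1 l) : Dec 1 (S l) := by
  have hP := prod_pos' h
  apply cons_dec h (by ring)
  · intro a ha
    have := le_prod' h ha
    omega
  · omega

lemma S_iter_dec {l : List ℕ} (h : Dec 1 l) (k : ℕ) : Dec 1 (S^[k] l) := by
  induction k with
  | zero => exact h
  | succ k ih => rw [Function.iterate_succ_apply']; exact S_dec ih

lemma S_iter_length (l : List ℕ) (k : ℕ) : (S^[k] l).length = l.length + k := by
  induction k with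
  | zero => rfl
  | succ k ih =>
    rw [Function.iterate_succ_apply', S, List.length_cons, ih]
    rfl

lemma S_iter_drop (l : List ℕ) (k : ℕ) : (S^[k] l).drop k = l := by
  induction k with
  | zero => rfl
  | succ k ih =>
    rw [Function.iterate_succ_apply', S, List.drop_succ_cons, ih]

lemma S_iter_prod (l : List ℕ) (k : ℕ) : (S^[k] l).prod = f^[k] l.prod := by
  induction k with
  | zero => rfl
  | succ k ih =>
    rw [Function.iterate_succ_apply', Function.iterate_succ_apply', S, List.prod_cons, ih, f]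

lemma f_mod (m P : ℕ) (k : ℕ) : (f^[k] P) % m = ((fun x => ((x + 1) * x) % m)^[k] (P % m)) % m := by
  induction k with
  | zero => simp
  | succ k ih =>
    rw [Function.iterate_succ_apply', Function.iterate_succ_apply', f]
    have : ∀ a b : ℕ, a % m = b % m → ((a + 1) * a) % m = ((b + 1) * b) % m := by
      intro a b hab
      exact Nat.ModEq.mul (Nat.ModEq.add_right 1 hab) hab
    rw [Nat.mod_mod]
    exact this _ _ ih

lemma g_iter_lt (x : ℕ) (hx : x < 1023165125) (k : ℕ) : g^[k] x < 1023165125 := by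
  cases k with
  | zero => exact hx
  | succ k => rw [Function.iterate_succ_apply']; exact Nat.mod_lt _ (by norm_num)

lemma f_mod_g (P : ℕ) (k : ℕ) : (f^[k] P) % 1023165125 = g^[k] (P % 1023165125) := by
  rw [f_mod]
  exact Nat.mod_eq_of_lt (g_iter_lt _ (Nat.mod_lt _ (by norm_num)) k)

lemma g_period : g^[174] 488895567 = 488895567 := by decide +kernel

lemma g_e : g^[55] 488895567 = 460424306 := by decide +kernel

lemma g_start : g^[22] 1 = 460424306 := by decide +kernel

lemma g_iter_mod (i : ℕ) : g^[i % 174] 488895567 = g^[i] 488895567 :=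
  Function.IsPeriodicPt.iterate_mod_apply (f := g) (n := 174) g_period i

lemma g_mod5 (i : ℕ) : (g^[i] 488895567) % 5 = if i % 2 = 0 then 2 else 1 := by
  induction i with
  | zero => rfl
  | succ i ih =>
    rw [Function.iterate_succ_apply', g]
    have h5 : (5 : ℕ) ∣ 1023165125 := by norm_num
    rw [Nat.mod_mod_of_dvd _ h5, Nat.mul_mod, Nat.add_mod, ih]
    rcases Nat.mod_two_eq_zero_or_one i with h | h
    · have : (i + 1) % 2 = 1 := by omega
      simp [h, this]
    · have : (i + 1) % 2 = 0 := by omega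
      simp [h, this]

lemma contract5 : ∀ a < 125, a % 5 = 1 → (fun x => ((x + 1) * x) % 125)^[4] a = 56 := by
  decide +kernel

lemma contract5' : (fun x => ((x + 1) * x) % 125)^[100] 56 = 56 := by
  decide +kernel

lemma contract2861 : (fun x => ((x + 1) * x) % 2861)^[103] 2808 = 1430 := by
  decide +kernel

lemma f104 (P : ℕ) (hP : P % 14305 = 11391) : (f^[104] P) % 1023165125 = 460424306 := by
  have h1 : (f^[104] P) % 125 = 56 := by
    have : f^[104] P = f^[100] (f^[4] P) := by
      rw [← Function.iterate_add_apply]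
    rw [this, f_mod, f_mod 125 P 4]
    have h4 : (fun x => ((x + 1) * x) % 125)^[4] (P % 125) = 56 := by
      apply contract5 _ (Nat.mod_lt _ (by norm_num))
      omega
    rw [h4]
    have : (56 : ℕ) % 125 % 125 = 56 := by norm_num
    rw [this, contract5']
  have h2 : (f^[104] P) % 8185321 = 2046330 := by
    have h3 : (f^[103] P) % 2861 = 1430 := by
      rw [f_mod]
      have : P % 2861 = 2808 := by omega
      rw [this, contract2861]
    rw [Function.iterate_succ_apply', f]
    set Q := f^[103] P with hQ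
    obtain ⟨t, ht⟩ : ∃ t, Q = 1430 + 2861 * t := ⟨Q / 2861, by omega⟩
    rw [ht]
    have : (1430 + 2861 * t + 1) * (1430 + 2861 * t) = 2046330 + 8185321 * (t + t * t) := by ring
    rw [this, Nat.add_mul_mod_self_left]
  set Q := f^[104] P with hQ
  have hc : Nat.Coprime 125 8185321 := by norm_num
  have h3 : Q ≡ 460424306 [MOD 125] := by
    unfold Nat.ModEq; rw [h1]
  have h4 : Q ≡ 460424306 [MOD 8185321] := by
    unfold Nat.ModEq; rw [h2]
  have h5 : Q ≡ 460424306 [MOD 125 * 8185321] :=
    (Nat.modEq_and_modEq_iff_modEq_mul hc).1 ⟨h3, h4⟩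
  have h6 : (125 * 8185321 : ℕ) = 1023165125 := by norm_num
  rw [h6] at h5
  unfold Nat.ModEq at h5
  rw [h5]

lemma lift_div (q m X u : ℕ) (hq : 0 < q) (h : X ≡ q * u [MOD q * m]) :
    ∃ y, q * y = X ∧ y ≡ u [MOD m] := by
  have hd : q ∣ X := by
    have h1 : X ≡ q * u [MOD q] := Nat.ModEq.of_dvd (Dvd.intro m rfl) h
    exact (Nat.ModEq.dvd_iff h1 (dvd_refl q)).2 (Dvd.intro u rfl)
  obtain ⟨y, rfl⟩ := hd
  exact ⟨y, rfl, Nat.ModEq.mul_left_cancel' hq.ne' h⟩

lemma word {l : List ℕ} (h : Dec 1 l) (hc : l.prod % 1023165125 = 488895567) :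
    ∃ l' : List ℕ, Dec 1 l' ∧ l'.length = l.length + 4 ∧ l'.drop 4 = l ∧
      l'.prod % 14305 = 11391 := by
  set P := l.prod with hP
  have hbig : 488895567 ≤ P := by
    rw [← hc]; exact Nat.mod_le _ _
  have hPm : P ≡ 488895567 [MOD 1023165125] := by
    unfold Nat.ModEq; rw [hc]
  -- second element
  obtain ⟨y2, h2, m2⟩ := lift_div 5 204633025 (P * (P + 5) + 2861)
      ((488895567 * (488895567 + 5) + 2861) / 5) (by norm_num) (by
        have : 5 * ((488895567 * (488895567 + 5) + 2861) / 5) = 488895567 * (488895567 + 5) + 2861 := by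
          norm_num
        rw [this]
        have : (5 * 204633025 : ℕ) = 1023165125 := by norm_num
        rw [this]
        exact Nat.ModEq.add_right _ (Nat.ModEq.mul hPm (Nat.ModEq.add_right _ hPm)))
  have m2' : y2 ≡ 156741087 [MOD 204633025] := by
    refine m2.trans ?_
    decide +kernel
  have hPm2 : P ≡ 488895567 [MOD 204633025] := hPm.of_dvd (by norm_num)
  obtain ⟨y3, h3, m3⟩ := lift_div 2861 71525 (P * (P + 5) * y2 + 5)
      ((488895567 * (488895567 + 5) * 156741087 + 5) / 2861) (by norm_num) (by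
        have : 2861 * ((488895567 * (488895567 + 5) * 156741087 + 5) / 2861) =
            488895567 * (488895567 + 5) * 156741087 + 5 := by
          norm_num
        rw [this]
        have : (2861 * 71525 : ℕ) = 204633025 := by norm_num
        rw [this]
        exact Nat.ModEq.add_right _ (Nat.ModEq.mul (Nat.ModEq.mul hPm2
          (Nat.ModEq.add_right _ hPm2)) m2'))
  have m3' : y3 ≡ 29263 [MOD 71525] := by
    refine m3.trans ?_
    decide +kernel
  have hPm3 : P ≡ 488895567 [MOD 71525] := hPm.of_dvd (by norm_num)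
  have m2'' : y2 ≡ 156741087 [MOD 71525] := m2'.of_dvd (by norm_num)
  obtain ⟨y4, h4, m4⟩ := lift_div 5 14305 (P * (P + 5) * y2 * y3 + 1)
      ((488895567 * (488895567 + 5) * 156741087 * 29263 + 1) / 5) (by norm_num) (by
        have : 5 * ((488895567 * (488895567 + 5) * 156741087 * 29263 + 1) / 5) =
            488895567 * (488895567 + 5) * 156741087 * 29263 + 1 := by
          norm_num
        rw [this]
        have : (5 * 14305 : ℕ) = 71525 := by norm_num
        rw [this]
        exact Nat.ModEq.add_right _ (Nat.ModEq.mul (Nat.ModEq.mul (Nat.ModEq.mul hPm3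
          (Nat.ModEq.add_right _ hPm3)) m2'') m3'))
  have m4' : y4 ≡ 10219 [MOD 14305] := by
    refine m4.trans ?_
    decide +kernel
  have m5 : P * (P + 5) * y2 * y3 * y4 ≡ 11391 [MOD 14305] := by
    have hPm4 : P ≡ 488895567 [MOD 14305] := hPm.of_dvd (by norm_num)
    have a2 : y2 ≡ 156741087 [MOD 14305] := m2'.of_dvd (by norm_num)
    have a3 : y3 ≡ 29263 [MOD 14305] := m3'.of_dvd (by norm_num)
    refine (Nat.ModEq.mul (Nat.ModEq.mul (Nat.ModEq.mul (Nat.ModEq.mul hPm4
          (Nat.ModEq.add_right _ hPm4)) a2) a3) m4').trans ?_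
    decide +kernel
  -- inequalities
  have i2 : P + 5 < y2 := by nlinarith
  have hpos2 : 0 < y2 := by omega
  have i3 : y2 < y3 := by
    have : 2861 * y2 < P * (P + 5) * y2 + 5 := by nlinarith
    omega
  have i4 : y3 < y4 := by
    have h7 : 5 < P * (P + 5) * y2 := by nlinarith
    have : 5 * y3 < P * (P + 5) * y2 * y3 + 1 := by nlinarith
    omega
  have d1 : Dec 5 ((P + 5) :: l) := by
    apply cons_dec h (by rw [one_mul])
    · intro a ha
      have := le_prod' h ha
      omega
    · omega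
  have d2 : Dec 2861 (y2 :: (P + 5) :: l) := by
    apply cons_dec d1
    · rw [List.prod_cons, ← hP, h2]; ring
    · intro a ha
      rcases List.mem_cons.1 ha with rfl | ha
      · exact i2
      · have := le_prod' h ha
        omega
    · omega
  have d3 : Dec 5 (y3 :: y2 :: (P + 5) :: l) := by
    apply cons_dec d2
    · rw [List.prod_cons, List.prod_cons, ← hP, h3]; ring
    · intro a ha
      rcases List.mem_cons.1 ha with rfl | ha
      · exact i3
      rcases List.mem_cons.1 ha with rfl | ha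
      · omega
      · have := le_prod' h ha
        omega
    · omega
  have d4 : Dec 1 (y4 :: y3 :: y2 :: (P + 5) :: l) := by
    apply cons_dec d3
    · rw [List.prod_cons, List.prod_cons, List.prod_cons, ← hP, h4]; ring
    · intro a ha
      rcases List.mem_cons.1 ha with rfl | ha
      · exact i4
      rcases List.mem_cons.1 ha with rfl | ha
      · omega
      rcases List.mem_cons.1 ha with rfl | ha
      · omega
      · have := le_prod' h ha
        omega
    · omega
  refine ⟨_, d4, rfl, rfl, ?_⟩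
  rw [List.prod_cons, List.prod_cons, List.prod_cons, List.prod_cons, ← hP]
  have : y4 * (y3 * (y2 * ((P + 5) * P))) = P * (P + 5) * y2 * y3 * y4 := by ring
  rw [this]
  unfold Nat.ModEq at m5
  rw [m5]

/-- Solutions of length `n` whose product is in the class of index parity `j`. -/
def G (j n : ℕ) : Set (List ℕ) :=
  {l | l.length = n ∧ Dec 1 l ∧ ∃ i, i % 2 = j ∧ l.prod % 1023165125 = g^[i] 488895567}

/-- All solutions as decreasing lists. -/
def SolL (n : ℕ) : Set (List ℕ) := {l | l.length = n ∧ Dec 1 l}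

lemma keyA {j n : ℕ} {l : List ℕ} (h : l ∈ G j n) : ∃ l' ∈ G j (n + 282), l'.drop 282 = l := by
  obtain ⟨hn, hd, i, hi, hp⟩ := h
  refine ⟨S^[282] l, ⟨?_, S_iter_dec hd _, 282 + i, ?_, ?_⟩, S_iter_drop _ _⟩
  · rw [S_iter_length, hn]
  · omega
  · rw [S_iter_prod, f_mod_g, hp, Function.iterate_add_apply]

lemma keyB {j n : ℕ} {l : List ℕ} (h : l ∈ G j n) :
    ∃ l' ∈ G (1 - j) (n + 282), l'.drop 282 = l := by
  obtain ⟨hn, hd, i₀, hi₀, hp₀⟩ := h
  obtain ⟨i, hi, hi174, hp⟩ : ∃ i, i % 2 = j ∧ i < 174 ∧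
      l.prod % 1023165125 = g^[i] 488895567 :=
    ⟨i₀ % 174, by omega, Nat.mod_lt _ (by norm_num), by rw [g_iter_mod, hp₀]⟩
  have hd1 := S_iter_dec hd (174 - i)
  have hc : (S^[174 - i] l).prod % 1023165125 = 488895567 := by
    rw [S_iter_prod, f_mod_g, hp, ← Function.iterate_add_apply]
    have : 174 - i + i = 174 := by omega
    rw [this, g_period]
  obtain ⟨l4, hd4, hl4, hdr4, hp4⟩ := word hd1 hc
  refine ⟨S^[i + 104] l4, ⟨?_, S_iter_dec hd4 _, i + 55, ?_, ?_⟩, ?_⟩
  · rw [S_iter_length, hl4, S_iter_length, hn]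
    omega
  · omega
  · rw [S_iter_prod, Function.iterate_add_apply, f_mod_g, f104 _ hp4,
      Function.iterate_add_apply, g_e]
  · have h282 : 282 = (i + 104) + (4 + (174 - i)) := by omega
    rw [h282, ← List.drop_drop, S_iter_drop, ← List.drop_drop, hdr4, S_iter_drop]

/-- Weakly increasing lists of positive integers with given length and sum of reciprocals. -/
def U (n : ℕ) (r : ℚ) : Set (List ℕ) :=
  {l | l.length = n ∧ l.Pairwise (· ≤ ·) ∧ (∀ a ∈ l, 0 < a) ∧
    (l.map (fun a : ℕ => (1 : ℚ) / (a : ℚ))).sum = r}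

lemma U_bound (k : ℕ) (n : ℕ) : n + 1 ≤ k → ∀ (D : ℕ) (r : ℚ), 0 < D →
    (∃ m : ℤ, r = (m : ℚ) / (D : ℚ)) →
    (U (n + 1) r).Finite ∧ (U (n + 1) r).ncard ≤ (k * D) ^ (2 ^ n - 1) := by
  induction n with
  | zero =>
    intro _ D r hD _
    have : U (0 + 1) r ⊆ {[⌊1 / r⌋₊]} := by
      rintro l ⟨hl, _, _, hsum⟩
      obtain ⟨a, rfl⟩ := List.length_eq_one_iff.1 hl
      rw [List.map_cons, List.map_nil, List.sum_cons, List.sum_nil, add_zero] at hsum
      rw [← hsum, one_div_one_div, Nat.floor_natCast]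
      rfl
    refine ⟨(Set.finite_singleton _).subset this, ?_⟩
    refine (Set.ncard_le_ncard this (Set.finite_singleton _)).trans ?_
    simp
  | succ n ih =>
    intro hk D r hD hr
    obtain ⟨m, hm⟩ := hr
    have hDQ : (0 : ℚ) < D := by exact_mod_cast hD
    have hsub : U (n + 1 + 1) r ⊆
        ⋃ a ∈ Finset.Icc 1 (k * D), (List.cons a) '' U (n + 1) (r - 1 / (a : ℚ)) := by
      rintro l ⟨hl, hs, hp, hsum⟩
      match l, hl, hs, hp, hsum with
      | [], hl, _, _, _ => simp at hl
      | a :: t, hl, hs, hp, hsum =>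
        rw [List.map_cons, List.sum_cons] at hsum
        rw [List.length_cons] at hl
        have ht : t.length = n + 1 := by omega
        rw [List.pairwise_cons] at hs
        have ha : 0 < a := hp a (List.mem_cons_self)
        have haQ : (0 : ℚ) < a := by exact_mod_cast ha
        have hle : (t.map (fun a : ℕ => (1 : ℚ) / (a : ℚ))).sum ≤ (n + 1) * (1 / (a : ℚ)) := by
          have := List.sum_le_card_nsmul (t.map (fun a : ℕ => (1 : ℚ) / (a : ℚ))) (1 / (a : ℚ)) (by
            intro x hx
            obtain ⟨b, hb, rfl⟩ := List.mem_map.1 hx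
            have hab : a ≤ b := hs.1 b hb
            exact one_div_le_one_div_of_le haQ (by exact_mod_cast hab))
          rw [List.length_map, ht, nsmul_eq_mul, Nat.cast_add, Nat.cast_one] at this
          exact this
        have hge : (0 : ℚ) ≤ (t.map (fun a : ℕ => (1 : ℚ) / (a : ℚ))).sum := by
          apply List.sum_nonneg
          intro x hx
          obtain ⟨b, _, rfl⟩ := List.mem_map.1 hx
          positivity
        have hrpos : 0 < r := by
          have : (0 : ℚ) < 1 / a := by positivity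
          linarith
        have hm1 : (1 : ℚ) ≤ m := by
          have : (0 : ℚ) < m := by
            rw [hm] at hrpos
            by_contra hcon
            push Not at hcon
            have := div_nonpos_of_nonpos_of_nonneg hcon hDQ.le
            linarith
          exact_mod_cast (by exact_mod_cast this : (0 : ℤ) < m)
        have hrD : 1 / (D : ℚ) ≤ r := by
          rw [hm]
          exact div_le_div_of_nonneg_right hm1 hDQ.le
        have haB : a ≤ k * D := by
          have h1 : 1 / (D : ℚ) ≤ (n + 1 + 1) * (1 / (a : ℚ)) := by linarith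
          have h2 : (a : ℚ) ≤ (n + 1 + 1) * D := by
            rw [mul_one_div, div_le_div_iff₀ hDQ haQ] at h1
            linarith
          have h3 : a ≤ (n + 1 + 1) * D := by exact_mod_cast h2
          exact h3.trans (Nat.mul_le_mul_right D hk)
        simp only [Set.mem_iUnion, Finset.mem_Icc]
        refine ⟨a, ⟨ha, haB⟩, t, ⟨ht, hs.2, fun b hb => hp b (List.mem_cons_of_mem _ hb), ?_⟩, rfl⟩
        linarith
    have hih : ∀ a ∈ Finset.Icc 1 (k * D), (U (n + 1) (r - 1 / (a : ℚ))).Finite ∧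
        (U (n + 1) (r - 1 / (a : ℚ))).ncard ≤ (k * (D * (k * D))) ^ (2 ^ n - 1) := by
      intro a ha
      rw [Finset.mem_Icc] at ha
      have haQ : (0 : ℚ) < a := by exact_mod_cast ha.1
      have h := ih (by omega) (D * a) (r - 1 / (a : ℚ)) (Nat.mul_pos hD ha.1) ⟨m * a - D, by
        rw [hm]
        push_cast
        field_simp⟩
      refine ⟨h.1, h.2.trans ?_⟩
      exact Nat.pow_le_pow_left (Nat.mul_le_mul_left k (Nat.mul_le_mul_left D ha.2)) _
    have hfin : (⋃ a ∈ Finset.Icc 1 (k * D), (List.cons a) '' U (n + 1) (r - 1 / (a : ℚ))).Finite := by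
      apply Set.Finite.biUnion (Finset.finite_toSet _)
      intro a ha
      exact (hih a ha).1.image _
    refine ⟨hfin.subset hsub, ?_⟩
    refine (Set.ncard_le_ncard hsub hfin).trans ?_
    have hcard : (⋃ a ∈ Finset.Icc 1 (k * D), (List.cons a) '' U (n + 1) (r - 1 / (a : ℚ))).ncard ≤
        ∑ a ∈ Finset.Icc 1 (k * D), ((List.cons a) '' U (n + 1) (r - 1 / (a : ℚ))).ncard :=
      Finset.set_ncard_biUnion_le _ _
    refine hcard.trans ?_
    refine (Finset.sum_le_card_nsmul _ _ ((k * (D * (k * D))) ^ (2 ^ n - 1)) ?_).trans ?_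
    · intro a ha
      exact (Set.ncard_image_le (hih a ha).1).trans (hih a ha).2
    · rw [Nat.card_Icc, smul_eq_mul]
      have h1 : k * D + 1 - 1 = k * D := by omega
      have h2 : k * (D * (k * D)) = (k * D) ^ 2 := by ring
      have h3 : 2 ^ (n + 1) - 1 = 1 + 2 * (2 ^ n - 1) := by
        have : 0 < 2 ^ n := by positivity
        rw [pow_succ]; omega
      rw [h1, h2, h3, pow_add, pow_one, pow_mul]

lemma SolL_finite_bound (n : ℕ) : (SolL n).Finite ∧ (SolL n).ncard ≤ (n + 1) ^ (2 ^ n - 1) := by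
  have hU := U_bound (n + 1) n le_rfl 1 1 one_pos ⟨1, by norm_num⟩
  rw [mul_one] at hU
  have hmap : Set.MapsTo (fun l : List ℕ => (l.prod :: l).reverse) (SolL n) (U (n + 1) 1) := by
    rintro l ⟨hl, hd⟩
    refine ⟨?_, ?_, ?_, ?_⟩
    · rw [List.length_reverse, List.length_cons, hl]
    · rw [List.pairwise_reverse, List.pairwise_cons]
      refine ⟨fun a ha => le_prod' hd ha, ?_⟩
      exact hd.1.imp (fun h => le_of_lt h)
    · intro a ha
      rw [List.mem_reverse] at ha
      rcases List.mem_cons.1 ha with rfl | ha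
      · exact prod_pos' hd
      · have := hd.2.1 a ha; omega
    · rw [List.map_reverse, List.sum_reverse, List.map_cons, List.sum_cons]
      have := hd.2.2
      push_cast at this
      rw [add_comm]
      push_cast
      exact this
  have hinj : Set.InjOn (fun l : List ℕ => (l.prod :: l).reverse) (SolL n) := by
    intro l _ l' _ h
    have h2 := List.reverse_injective h
    exact (List.cons_eq_cons.1 h2).2
  refine ⟨Set.Finite.of_finite_image (hU.1.subset (Set.image_subset_iff.2 hmap)) hinj, ?_⟩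
  rw [← Set.InjOn.ncard_image hinj]
  exact (Set.ncard_le_ncard (Set.image_subset_iff.2 hmap) hU.1).trans hU.2

lemma G_sub (j n : ℕ) : G j n ⊆ SolL n := fun _ h => ⟨h.1, h.2.1⟩

lemma G_finite (j n : ℕ) : (G j n).Finite := (SolL_finite_bound n).1.subset (G_sub j n)

lemma G_disj (n : ℕ) : Disjoint (G 0 n) (G 1 n) := by
  rw [Set.disjoint_left]
  rintro l ⟨_, _, i, hi, h⟩ ⟨_, _, i', hi', h'⟩
  have h1 := g_mod5 i
  have h2 := g_mod5 i'
  rw [← h] at h1
  rw [← h'] at h2
  rw [h1] at h2
  simp [hi, hi'] at h2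

lemma G_step {j n : ℕ} (hj : j < 2) : (G 0 n).ncard + (G 1 n).ncard ≤ (G j (n + 282)).ncard := by
  rw [← Set.ncard_union_eq (G_disj n) (G_finite 0 n) (G_finite 1 n)]
  have hsub : G 0 n ∪ G 1 n ⊆ (fun l : List ℕ => l.drop 282) '' G j (n + 282) := by
    rintro l (hl | hl)
    · interval_cases j
      · obtain ⟨l', h', hd⟩ := keyA hl
        exact ⟨l', h', hd⟩
      · obtain ⟨l', h', hd⟩ := keyB hl
        exact ⟨l', h', hd⟩
    · interval_cases j
      · obtain ⟨l', h', hd⟩ := keyB hl
        exact ⟨l', h', hd⟩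
      · obtain ⟨l', h', hd⟩ := keyA hl
        exact ⟨l', h', hd⟩
  refine (Set.ncard_le_ncard hsub ((G_finite j (n + 282)).image _)).trans ?_
  exact Set.ncard_image_le (G_finite j (n + 282))

lemma nil_dec : Dec 1 [] := by
  refine ⟨List.Pairwise.nil, by simp, by simp⟩

lemma G_base (n : ℕ) (hn : 22 ≤ n) : 1 ≤ (G 0 n).ncard + (G 1 n).ncard := by
  have hmem : S^[n] [] ∈ G ((n - 22 + 55) % 2) n := by
    refine ⟨?_, S_iter_dec nil_dec n, n - 22 + 55, rfl, ?_⟩
    · rw [S_iter_length]; simp
    · rw [S_iter_prod, f_mod_g]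
      have h1 : n = (n - 22) + 22 := by omega
      have h2 : (([] : List ℕ).prod) % 1023165125 = 1 := by simp
      rw [h2]
      conv_lhs => rw [h1]
      rw [Function.iterate_add_apply, g_start, Function.iterate_add_apply, g_e]
  have hpos : 0 < (G ((n - 22 + 55) % 2) n).ncard :=
    (Set.ncard_pos (G_finite _ _)).2 ⟨_, hmem⟩
  rcases Nat.mod_two_eq_zero_or_one (n - 22 + 55) with h | h <;> rw [h] at hpos <;> omega

lemma G_growth (k : ℕ) : ∀ n, 282 * k + 304 ≤ n → ∀ j < 2, 2 ^ k ≤ (G j n).ncard := by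
  induction k with
  | zero =>
    intro n hn j hj
    have h1 := G_base (n - 282) (by omega)
    have h2 := G_step (n := n - 282) hj
    have h3 : n - 282 + 282 = n := by omega
    rw [h3] at h2
    rw [pow_zero]
    omega
  | succ k ih =>
    intro n hn j hj
    have h0 := ih (n - 282) (by omega) 0 (by norm_num)
    have h1 := ih (n - 282) (by omega) 1 (by norm_num)
    have h2 := G_step (n := n - 282) hj
    have h3 : n - 282 + 282 = n := by omega
    rw [h3] at h2
    rw [pow_succ]
    omega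

lemma two_pow_le (l : List ℕ) : (∀ a ∈ l, 1 < a) → 2 ^ l.length ≤ l.prod := by
  induction l with
  | nil => intro _; simp
  | cons a l ih =>
    intro h
    have h1 := ih (fun b hb => h b (List.mem_cons_of_mem _ hb))
    have h2 := h a List.mem_cons_self
    rw [List.length_cons, List.prod_cons, pow_succ, mul_comm]
    exact Nat.mul_le_mul h2 h1

lemma nonstandard {n : ℕ} (hn3 : 3 ≤ n) {l : List ℕ} (h : l ∈ G 0 n) :
    ∃ l' ∈ SolL (n + 2), (∀ m ∈ SolL (n + 1), S m ≠ l') ∧ l'.drop 2 = l := by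
  obtain ⟨hn, hd, i, hi, hp⟩ := h
  have h5 : l.prod % 5 = 2 := by
    have := g_mod5 i
    rw [if_pos hi, ← hp, Nat.mod_mod_of_dvd _ (by norm_num : (5 : ℕ) ∣ 1023165125)] at this
    exact this
  have h8 : 8 ≤ l.prod := by
    have h1 := two_pow_le l hd.2.1
    rw [hn] at h1
    have h2 : 2 ^ 3 ≤ 2 ^ n := Nat.pow_le_pow_right (by norm_num) hn3
    omega
  set P := l.prod with hP
  have hdiv : 5 ∣ P * (P + 5) + 1 := by
    have h6 : (P + 5) % 5 = 2 := by omega
    apply Nat.dvd_of_mod_eq_zero
    rw [Nat.add_mod, Nat.mul_mod, h6, h5]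
  obtain ⟨y2, h2⟩ := hdiv
  have d1 : Dec 5 ((P + 5) :: l) := by
    apply cons_dec hd (by rw [one_mul])
    · intro a ha
      have := le_prod' hd ha
      omega
    · omega
  have hlt : P + 5 < y2 := by nlinarith
  have d2 : Dec 1 (y2 :: (P + 5) :: l) := by
    apply cons_dec d1
    · rw [List.prod_cons, ← hP, ← h2]; ring
    · intro a ha
      rcases List.mem_cons.1 ha with rfl | ha
      · exact hlt
      · have := le_prod' hd ha
        omega
    · omega
  refine ⟨_, ⟨by rw [List.length_cons, List.length_cons, hn], d2⟩, ?_, rfl⟩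
  rintro m _ hm
  rw [S] at hm
  obtain ⟨e1, e2⟩ := List.cons_eq_cons.1 hm
  rw [e2, List.prod_cons, ← hP] at e1
  rw [← e1] at h2
  nlinarith

lemma S_inj : Function.Injective S := by
  intro l l' h
  exact (List.cons_eq_cons.1 h).2

lemma increment {n : ℕ} (hn : 3 ≤ n) :
    (SolL (n + 1)).ncard + (G 0 n).ncard ≤ (SolL (n + 2)).ncard := by
  have hex : ∀ l : List ℕ, ∃ l' : List ℕ, l ∈ G 0 n →
      (l' ∈ SolL (n + 2) ∧ (∀ m ∈ SolL (n + 1), S m ≠ l') ∧ l'.drop 2 = l) := by
    intro l
    by_cases h : l ∈ G 0 n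
    · obtain ⟨l', h1, h2, h3⟩ := nonstandard hn h
      exact ⟨l', fun _ => ⟨h1, h2, h3⟩⟩
    · exact ⟨[], fun h' => absurd h' h⟩
  choose V hV using hex
  have hVinj : Set.InjOn V (G 0 n) := by
    intro l hl l' hl' h
    rw [← (hV l hl).2.2, ← (hV l' hl').2.2, h]
  rw [← Set.InjOn.ncard_image (S_inj.injOn (s := SolL (n + 1))), ← Set.InjOn.ncard_image hVinj]
  have hdisj : Disjoint (S '' SolL (n + 1)) (V '' G 0 n) := by
    rw [Set.disjoint_left]
    rintro _ ⟨m, hm, rfl⟩ ⟨l, hl, h⟩
    exact (hV l hl).2.1 m hm h.symm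
  rw [← Set.ncard_union_eq hdisj ((SolL_finite_bound _).1.image _) ((G_finite _ _).image _)]
  apply Set.ncard_le_ncard _ (SolL_finite_bound _).1
  rintro _ (⟨m, hm, rfl⟩ | ⟨l, hl, rfl⟩)
  · exact ⟨by rw [S, List.length_cons, hm.1], S_dec hm.2⟩
  · exact (hV l hl).1

lemma bridge (s : ℕ) : (fun l : List ℕ => l.toFinset) '' SolL s = Solutions s ∧
    Set.InjOn (fun l : List ℕ => l.toFinset) (SolL s) := by
  have hnd : ∀ l ∈ SolL s, l.Nodup := fun l hl => hl.2.1.imp (fun h => ne_of_gt h)
  constructor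
  · ext x
    constructor
    · rintro ⟨l, hl, rfl⟩
      have h1 := hnd l hl
      refine ⟨?_, ?_, ?_⟩
      · rw [List.toFinset_card_of_nodup h1, hl.1]
      · intro a ha
        exact hl.2.2.1 a (List.mem_toFinset.1 ha)
      · rw [List.sum_toFinset _ h1, List.prod_toFinset _ h1]
        have := hl.2.2.2
        rw [Nat.cast_one, Nat.cast_list_prod] at this
        exact this
    · rintro ⟨hc, h1, he⟩
      refine ⟨x.sort (· ≥ ·), ⟨?_, ?_, ?_, ?_⟩, ?_⟩
      · rw [Finset.length_sort, hc]
      · exact (Finset.sortedGT_sort x).pairwise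
      · intro a ha
        exact h1 a ((Finset.mem_sort _).1 ha)
      · have h2 : (x.sort (· ≥ ·)).Nodup := Finset.sort_nodup x _
        have h3 := List.sum_toFinset (fun a : ℕ => (1 : ℚ) / (a : ℚ)) h2
        have h4 := List.prod_toFinset (fun a : ℕ => (a : ℚ)) h2
        rw [Finset.sort_toFinset] at h3 h4
        rw [Nat.cast_one, Nat.cast_list_prod, ← h3, ← h4]
        exact he
      · exact Finset.sort_toFinset x _
  · intro l hl l' hl' h
    have e1 := (List.toFinset_sort (· ≥ ·) (hnd l hl)).2 (hl.2.1.imp (fun h => le_of_lt h))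
    have e2 := (List.toFinset_sort (· ≥ ·) (hnd l' hl')).2 (hl'.2.1.imp (fun h => le_of_lt h))
    rw [← e1, ← e2]
    exact congrArg (fun x : Finset ℕ => x.sort (· ≥ ·)) h

lemma omega_eq (s : ℕ) : Omega s = (SolL s).ncard := by
  rw [Omega, ← (bridge s).1, Set.InjOn.ncard_image (bridge s).2]

/-- The number of solutions grows at least exponentially, already in its increments, and the
growth inequality of Cao holds in an explicit region. -/

theorem result :
    (∀ s : ℕ, (Solutions s).Finite) ∧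
    (∀ k n : ℕ, 282 * k + 305 ≤ n → Omega n + 2 ^ k ≤ Omega (n + 1)) ∧
    (∀ s t : ℕ, 0 < s → 282 * s * 2 ^ s + 304 ≤ t →
      Omega (s + t) + Omega s + s ≤ Omega (s + t + 1)) := by
  have main : ∀ k n : ℕ, 282 * k + 305 ≤ n → Omega n + 2 ^ k ≤ Omega (n + 1) := by
    intro k n hn
    rw [omega_eq, omega_eq]
    have h1 := G_growth k (n - 1) (by omega) 0 (by norm_num)
    have h2 := increment (n := n - 1) (by omega)
    have h3 : n - 1 + 1 = n := by omega
    have h4 : n - 1 + 2 = n + 1 := by omega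
    rw [h3, h4] at h2
    omega
  refine ⟨?_, main, ?_⟩
  · intro s
    rw [← (bridge s).1]
    exact (SolL_finite_bound s).1.image _
  · intro s t hs ht
    have h1 := main (s * 2 ^ s) (s + t) (by
      have : 282 * s * 2 ^ s = 282 * (s * 2 ^ s) := by ring
      omega)
    have h2 : Omega s + s ≤ 2 ^ (s * 2 ^ s) := by
      have h3 : Omega s ≤ (s + 1) ^ (2 ^ s - 1) := by
        rw [omega_eq]; exact (SolL_finite_bound s).2
      have h4 : s + 1 ≤ 2 ^ s := Nat.lt_two_pow_self
      have h5 : Omega s ≤ 2 ^ (s * (2 ^ s - 1)) := by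
        rw [pow_mul]
        exact h3.trans (Nat.pow_le_pow_left h4 _)
      have h6 : s * 2 ^ s = s * (2 ^ s - 1) + s := by
        obtain ⟨m, hm⟩ : ∃ m, 2 ^ s = m + 1 := ⟨2 ^ s - 1, by omega⟩
        rw [hm, Nat.add_sub_cancel]
        ring
      rw [h6, pow_add]
      have h7 : 1 ≤ 2 ^ (s * (2 ^ s - 1)) := Nat.one_le_two_pow
      have h8 : s * 1 ≤ s * 2 ^ (s * (2 ^ s - 1)) := Nat.mul_le_mul_left s h7
      calc Omega s + s ≤ 2 ^ (s * (2 ^ s - 1)) + s * 2 ^ (s * (2 ^ s - 1)) := by omega
        _ = 2 ^ (s * (2 ^ s - 1)) * (s + 1) := by ring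
        _ ≤ 2 ^ (s * (2 ^ s - 1)) * 2 ^ s := Nat.mul_le_mul_left _ h4
    omega

end Pool.Agent.Results.MP_27067c_nt.ExponentialGrowth
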